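import Pool.Agent.U426.TU.Stm

/-! Project TU, package NB: the five left ideals between `√2 O` and `O` are equivalent. -/

set_option autoImplicit false
set_option maxHeartbeats 4000000

namespace Pool.Agent.U504.TU.NB

open Pool.Agent.U426.TU

/-! ### residues in `F_4` -/

def fadd (x y : Bool × Bool) : Bool × Bool := (xor x.1 y.1, xor x.2 y.2)

def fmul (x y : Bool × Bool) : Bool × Bool :=
  (xor (x.1 && y.1) (x.2 && y.2), xor (xor (x.1 && y.2) (x.2 && y.1)) (x.2 && y.2))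

def Bt (z : K) (f : Bool × Bool) : Prop :=
  ∃ a b c d : ℤ, z = mkK a b c d ∧ a.bodd = f.1 ∧ c.bodd = f.2

theorem Bt.add {z w : K} {f g : Bool × Bool} (h : Bt z f) (h' : Bt w g) :
    Bt (z + w) (fadd f g) := by
  obtain ⟨a, b, c, d, rfl, h1, h2⟩ := h
  obtain ⟨a', b', c', d', rfl, h1', h2'⟩ := h'
  refine ⟨a + a', b + b', c + c', d + d', by rw [mkK_add]; push_cast; rfl, ?_, ?_⟩
  · rw [Int.bodd_add, h1, h1']; rfl
  · rw [Int.bodd_add, h2, h2']; rfl

theorem Bt.mul {z w : K} {f g : Bool × Bool} (h : Bt z f) (h' : Bt w g) :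
    Bt (z * w) (fmul f g) := by
  obtain ⟨a, b, c, d, rfl, h1, h2⟩ := h
  obtain ⟨a', b', c', d', rfl, h1', h2'⟩ := h'
  refine ⟨a * a' + 2 * b * b' + c * c' + 2 * d * d', a * b' + b * a' + c * d' + d * c',
    a * c' + 2 * b * d' + c * a' + 2 * d * b' + c * c' + 2 * d * d',
    a * d' + b * c' + c * b' + d * a' + c * d' + d * c', by rw [mkK_mul]; push_cast; rfl, ?_, ?_⟩
  · simp only [Int.bodd_add, Int.bodd_mul, h1, h2, h1', h2', fmul]
    simp [Int.bodd_two]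
  · simp only [Int.bodd_add, Int.bodd_mul, h1, h2, h1', h2', fmul]
    simp [Int.bodd_two]

theorem Bt.sub {z w : K} {f : Bool × Bool} (h : Bt z f) (h' : Bt w f) :
    Bt (z - w) (false, false) := by
  obtain ⟨a, b, c, d, rfl, h1, h2⟩ := h
  obtain ⟨a', b', c', d', rfl, h1', h2'⟩ := h'
  refine ⟨a - a', b - b', c - c', d - d', by rw [mkK_sub]; push_cast; rfl, ?_, ?_⟩
  · rw [sub_eq_add_neg, Int.bodd_add, Int.bodd_neg, h1, h1']; simp
  · rw [sub_eq_add_neg, Int.bodd_add, Int.bodd_neg, h2, h2']; simp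

/-- the constant `a + c φ` -/
def cs (a c : ℤ) : K := mkK a 0 c 0

theorem Bt_cs {a c : ℤ} {p q : Bool} (h1 : a.bodd = p) (h2 : c.bodd = q) : Bt (cs a c) (p, q) :=
  ⟨a, 0, c, 0, by push_cast; rfl, h1, h2⟩

theorem cs_eq (a c : ℤ) : cs a c = (a : K) + (c : K) * ph := by
  have h : ∀ n : ℤ, (n : K) = mkK n 0 0 0 := by
    intro n
    rw [← mkK_rat]
    push_cast
    rfl
  rw [h a, h c, ph, mkK_mul, mkK_add]
  unfold cs
  norm_num

/-! ### quaternions -/

/-- the quaternion with the coordinates `a0, a1, a2, a3` in the basis of the icosian order -/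
def E4 (a0 a1 a2 a3 : K) : HK :=
  ⟨a0 + a2 / 2, a1 + a2 / 2 + a3 / 2, a2 / 2 + (ph - 1) / 2 * a3, a2 / 2 + ph / 2 * a3⟩

theorem E4_re (a0 a1 a2 a3 : K) : (E4 a0 a1 a2 a3).re = a0 + a2 / 2 := rfl
theorem E4_imI (a0 a1 a2 a3 : K) : (E4 a0 a1 a2 a3).imI = a1 + a2 / 2 + a3 / 2 := rfl
theorem E4_imJ (a0 a1 a2 a3 : K) : (E4 a0 a1 a2 a3).imJ = a2 / 2 + (ph - 1) / 2 * a3 := rfl
theorem E4_imK (a0 a1 a2 a3 : K) : (E4 a0 a1 a2 a3).imK = a2 / 2 + ph / 2 * a3 := rfl

theorem e_cases : e 0 = E4 1 0 0 0 ∧ e 1 = E4 0 1 0 0 ∧ e 2 = E4 0 0 1 0 ∧ e 3 = E4 0 0 0 1 := by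
  refine ⟨?_, ?_, ?_, ?_⟩
  · apply Quaternion.ext
    · show (1 : K) = 1 + 0 / 2; ring
    · show (0 : K) = 0 + 0 / 2 + 0 / 2; ring
    · show (0 : K) = 0 / 2 + (ph - 1) / 2 * 0; ring
    · show (0 : K) = 0 / 2 + ph / 2 * 0; ring
  · apply Quaternion.ext
    · show (0 : K) = 0 + 0 / 2; ring
    · show (1 : K) = 1 + 0 / 2 + 0 / 2; ring
    · show (0 : K) = 0 / 2 + (ph - 1) / 2 * 0; ring
    · show (0 : K) = 0 / 2 + ph / 2 * 0; ring
  · apply Quaternion.ext
    · show (1 / 2 : K) = 0 + 1 / 2; ring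
    · show (1 / 2 : K) = 0 + 1 / 2 + 0 / 2; ring
    · show (1 / 2 : K) = 1 / 2 + (ph - 1) / 2 * 0; ring
    · show (1 / 2 : K) = 1 / 2 + ph / 2 * 0; ring
  · apply Quaternion.ext
    · show (0 : K) = 0 + 0 / 2; ring
    · show (1 / 2 : K) = 0 + 0 / 2 + 1 / 2; ring
    · show ((ph - 1) / 2 : K) = 0 / 2 + (ph - 1) / 2 * 1; ring
    · show (ph / 2 : K) = 0 / 2 + ph / 2 * 1; ring

theorem E4_add (a0 a1 a2 a3 b0 b1 b2 b3 : K) : E4 a0 a1 a2 a3 + E4 b0 b1 b2 b3 =
    E4 (a0 + b0) (a1 + b1) (a2 + b2) (a3 + b3) := by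
  apply Quaternion.ext
  · rw [Quaternion.re_add, E4_re, E4_re, E4_re]; ring
  · rw [Quaternion.imI_add, E4_imI, E4_imI, E4_imI]; ring
  · rw [Quaternion.imJ_add, E4_imJ, E4_imJ, E4_imJ]; ring
  · rw [Quaternion.imK_add, E4_imK, E4_imK, E4_imK]; ring

theorem E4_sub (a0 a1 a2 a3 b0 b1 b2 b3 : K) : E4 a0 a1 a2 a3 - E4 b0 b1 b2 b3 =
    E4 (a0 - b0) (a1 - b1) (a2 - b2) (a3 - b3) := by
  apply Quaternion.ext
  · rw [Quaternion.re_sub, E4_re, E4_re, E4_re]; ring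
  · rw [Quaternion.imI_sub, E4_imI, E4_imI, E4_imI]; ring
  · rw [Quaternion.imJ_sub, E4_imJ, E4_imJ, E4_imJ]; ring
  · rw [Quaternion.imK_sub, E4_imK, E4_imK, E4_imK]; ring

theorem E4_smul (r a0 a1 a2 a3 : K) : r • E4 a0 a1 a2 a3 =
    E4 (r * a0) (r * a1) (r * a2) (r * a3) := by
  apply Quaternion.ext
  · rw [Quaternion.re_smul, E4_re, E4_re, smul_eq_mul]; ring
  · rw [Quaternion.imI_smul, E4_imI, E4_imI, smul_eq_mul]; ring
  · rw [Quaternion.imJ_smul, E4_imJ, E4_imJ, smul_eq_mul]; ring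
  · rw [Quaternion.imK_smul, E4_imK, E4_imK, smul_eq_mul]; ring

theorem sum_e (r : Fin 4 → K) : ∑ m, r m • e m = E4 (r 0) (r 1) (r 2) (r 3) := by
  rw [Fin.sum_univ_four]
  obtain ⟨h0, h1, h2, h3⟩ := e_cases
  rw [h0, h1, h2, h3, E4_smul, E4_smul, E4_smul, E4_smul, E4_add, E4_add, E4_add]
  congr 1 <;> ring

theorem E4_mul (a0 a1 a2 a3 b0 b1 b2 b3 : K) : E4 a0 a1 a2 a3 * E4 b0 b1 b2 b3 =
    E4 (a0 * b0 * cs (1) (0) + a1 * b1 * cs (-1) (0) + a1 * b2 * cs (-1) (1) + a1 * b3 * cs (1) (0) + a2 * b1 * cs (0) (-1) + a2 * b2 * cs (-1) (0) + a2 * b3 * cs (1) (-1) + a3 * b1 * cs (-2) (0) + a3 * b2 * cs (-1) (0) + a3 * b3 * cs (-1) (0))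
      (a0 * b1 * cs (1) (0) + a1 * b0 * cs (1) (0) + a1 * b2 * cs (-1) (1) + a1 * b3 * cs (2) (-1) + a2 * b1 * cs (2) (-1) + a2 * b3 * cs (2) (-1) + a3 * b1 * cs (-2) (1) + a3 * b2 * cs (-2) (1))
      (a0 * b2 * cs (1) (0) + a1 * b2 * cs (1) (-2) + a1 * b3 * cs (-3) (0) + a2 * b0 * cs (1) (0) + a2 * b1 * cs (-1) (2) + a2 * b2 * cs (1) (0) + a2 * b3 * cs (-2) (1) + a3 * b1 * cs (3) (0) + a3 * b2 * cs (2) (-1))
      (a0 * b3 * cs (1) (0) + a1 * b2 * cs (2) (0) + a1 * b3 * cs (-1) (2) + a2 * b1 * cs (-2) (0) + a2 * b3 * cs (-1) (1) + a3 * b0 * cs (1) (0) + a3 * b1 * cs (1) (-2) + a3 * b2 * cs (2) (-1)) := by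
  simp only [cs_eq]
  push_cast
  apply Quaternion.ext
  · rw [Quaternion.re_mul]
    simp only [E4_re, E4_imI, E4_imJ, E4_imK]
    linear_combination (-(1 / 2) * a3 * b3) * ph_sq
  · rw [Quaternion.imI_mul]
    simp only [E4_re, E4_imI, E4_imJ, E4_imK]
    ring
  · rw [Quaternion.imJ_mul]
    simp only [E4_re, E4_imI, E4_imJ, E4_imK]
    linear_combination (-(a1 * b3) - 1 / 2 * a2 * b3 + a3 * b1 + 1 / 2 * a3 * b2) * ph_sq
  · rw [Quaternion.imK_mul]
    simp only [E4_re, E4_imI, E4_imJ, E4_imK]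
    linear_combination (-(a1 * b3) - 1 / 2 * a2 * b3 + a3 * b1 + 1 / 2 * a3 * b2) * ph_sq

abbrev B8 : Type := (Bool × Bool) × (Bool × Bool) × (Bool × Bool) × (Bool × Bool)

def mul8 (x y : B8) : B8 :=
  (fadd (fadd (fadd (fadd (fadd (fadd (fadd (fadd (fadd (fmul (fmul x.1 y.1) (true, false)) (fmul (fmul x.2.1 y.2.1) (true, false))) (fmul (fmul x.2.1 y.2.2.1) (true, true))) (fmul (fmul x.2.1 y.2.2.2) (true, false))) (fmul (fmul x.2.2.1 y.2.1) (false, true))) (fmul (fmul x.2.2.1 y.2.2.1) (true, false))) (fmul (fmul x.2.2.1 y.2.2.2) (true, true))) (fmul (fmul x.2.2.2 y.2.1) (false, false))) (fmul (fmul x.2.2.2 y.2.2.1) (true, false))) (fmul (fmul x.2.2.2 y.2.2.2) (true, false)),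
   fadd (fadd (fadd (fadd (fadd (fadd (fadd (fmul (fmul x.1 y.2.1) (true, false)) (fmul (fmul x.2.1 y.1) (true, false))) (fmul (fmul x.2.1 y.2.2.1) (true, true))) (fmul (fmul x.2.1 y.2.2.2) (false, true))) (fmul (fmul x.2.2.1 y.2.1) (false, true))) (fmul (fmul x.2.2.1 y.2.2.2) (false, true))) (fmul (fmul x.2.2.2 y.2.1) (false, true))) (fmul (fmul x.2.2.2 y.2.2.1) (false, true)),
   fadd (fadd (fadd (fadd (fadd (fadd (fadd (fadd (fmul (fmul x.1 y.2.2.1) (true, false)) (fmul (fmul x.2.1 y.2.2.1) (true, false))) (fmul (fmul x.2.1 y.2.2.2) (true, false))) (fmul (fmul x.2.2.1 y.1) (true, false))) (fmul (fmul x.2.2.1 y.2.1) (true, false))) (fmul (fmul x.2.2.1 y.2.2.1) (true, false))) (fmul (fmul x.2.2.1 y.2.2.2) (false, true))) (fmul (fmul x.2.2.2 y.2.1) (true, false))) (fmul (fmul x.2.2.2 y.2.2.1) (false, true)),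
   fadd (fadd (fadd (fadd (fadd (fadd (fadd (fmul (fmul x.1 y.2.2.2) (true, false)) (fmul (fmul x.2.1 y.2.2.1) (false, false))) (fmul (fmul x.2.1 y.2.2.2) (true, false))) (fmul (fmul x.2.2.1 y.2.1) (false, false))) (fmul (fmul x.2.2.1 y.2.2.2) (true, true))) (fmul (fmul x.2.2.2 y.1) (true, false))) (fmul (fmul x.2.2.2 y.2.1) (true, false))) (fmul (fmul x.2.2.2 y.2.2.1) (false, true)))

def add8 (x y : B8) : B8 :=
  (fadd x.1 y.1, fadd x.2.1 y.2.1, fadd x.2.2.1 y.2.2.1, fadd x.2.2.2 y.2.2.2)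

def Rs (x : HK) (v : B8) : Prop := ∃ a0 a1 a2 a3 : K, x = E4 a0 a1 a2 a3 ∧
  Bt a0 v.1 ∧ Bt a1 v.2.1 ∧ Bt a2 v.2.2.1 ∧ Bt a3 v.2.2.2

theorem Rs.mul {x y : HK} {v w : B8} (h : Rs x v) (h' : Rs y w) : Rs (x * y) (mul8 v w) := by
  obtain ⟨a0, a1, a2, a3, rfl, h0, h1, h2, h3⟩ := h
  obtain ⟨b0, b1, b2, b3, rfl, k0, k1, k2, k3⟩ := h'
  refine ⟨_, _, _, _, E4_mul _ _ _ _ _ _ _ _, ?_, ?_, ?_, ?_⟩
  all_goals
    unfold mul8
    repeat' first
      | exact h0 | exact h1 | exact h2 | exact h3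
      | exact k0 | exact k1 | exact k2 | exact k3
      | exact Bt_cs rfl rfl
      | apply Bt.add | apply Bt.mul

theorem Rs.add {x y : HK} {v w : B8} (h : Rs x v) (h' : Rs y w) : Rs (x + y) (add8 v w) := by
  obtain ⟨a0, a1, a2, a3, rfl, h0, h1, h2, h3⟩ := h
  obtain ⟨b0, b1, b2, b3, rfl, k0, k1, k2, k3⟩ := h'
  exact ⟨_, _, _, _, E4_add _ _ _ _ _ _ _ _, h0.add k0, h1.add k1, h2.add k2, h3.add k3⟩

def zero8 : B8 := ((false, false), (false, false), (false, false), (false, false))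
def one8 : B8 := ((true, false), (false, false), (false, false), (false, false))

theorem Rs.sub {x y : HK} {v : B8} (h : Rs x v) (h' : Rs y v) : Rs (x - y) zero8 := by
  obtain ⟨a0, a1, a2, a3, rfl, h0, h1, h2, h3⟩ := h
  obtain ⟨b0, b1, b2, b3, rfl, k0, k1, k2, k3⟩ := h'
  exact ⟨_, _, _, _, E4_sub _ _ _ _ _ _ _ _, h0.sub k0, h1.sub k1, h2.sub k2, h3.sub k3⟩

theorem Rs.mem {x : HK} {v : B8} (h : Rs x v) : x ∈ OI := by
  obtain ⟨a0, a1, a2, a3, rfl, h0, h1, h2, h3⟩ := h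
  have hb : ∀ {z : K} {f : Bool × Bool}, Bt z f → z ∈ R := by
    rintro z f ⟨a, b, c, d, rfl, -, -⟩
    exact ⟨a, b, c, d, rfl⟩
  refine ⟨![a0, a1, a2, a3], ?_, ?_⟩
  · intro m
    fin_cases m
    · exact hb h0
    · exact hb h1
    · exact hb h2
    · exact hb h3
  · rw [sum_e]
    rfl

theorem exists_Rs {x : HK} (h : x ∈ OI) : ∃ v : B8, Rs x v := by
  obtain ⟨r, hr, rfl⟩ := h
  rw [sum_e]
  have hb : ∀ z ∈ R, ∃ f, Bt z f := by
    rintro z ⟨a, b, c, d, rfl⟩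
    exact ⟨(a.bodd, c.bodd), a, b, c, d, rfl, rfl, rfl⟩
  obtain ⟨f0, h0⟩ := hb _ (hr 0)
  obtain ⟨f1, h1⟩ := hb _ (hr 1)
  obtain ⟨f2, h2⟩ := hb _ (hr 2)
  obtain ⟨f3, h3⟩ := hb _ (hr 3)
  exact ⟨(f0, f1, f2, f3), _, _, _, _, rfl, h0, h1, h2, h3⟩

theorem real (v : B8) : ∃ x ∈ OI, Rs x v := by
  have hb : ∀ f : Bool × Bool, ∃ z, Bt z f := by
    rintro ⟨p, q⟩
    refine ⟨mkK (((if p then 1 else 0 : ℤ)) : ℚ) ((0 : ℤ) : ℚ) (((if q then 1 else 0 : ℤ)) : ℚ)
      ((0 : ℤ) : ℚ), _, _, _, _, rfl, ?_, ?_⟩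
    · cases p <;> rfl
    · cases q <;> rfl
  obtain ⟨z0, h0⟩ := hb v.1
  obtain ⟨z1, h1⟩ := hb v.2.1
  obtain ⟨z2, h2⟩ := hb v.2.2.1
  obtain ⟨z3, h3⟩ := hb v.2.2.2
  have : Rs (E4 z0 z1 z2 z3) v := ⟨_, _, _, _, rfl, h0, h1, h2, h3⟩
  exact ⟨_, this.mem, this⟩

theorem Rs.div {x : HK} (h : Rs x zero8) : ∃ y ∈ OI, x = r2 • y := by
  obtain ⟨a0, a1, a2, a3, rfl, h0, h1, h2, h3⟩ := h
  have hb : ∀ {z : K}, Bt z (false, false) → ∃ y ∈ R, z = r2 * y := by
    rintro z ⟨a, b, c, d, rfl, ha, hc⟩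
    have hev : ∀ n : ℤ, n.bodd = false → ∃ n', n = 2 * n' := by
      intro n hn
      have h := Int.bodd_add_div2 n
      rw [hn] at h
      exact ⟨n.div2, by simpa using h.symm⟩
    obtain ⟨a', rfl⟩ := hev a ha
    obtain ⟨c', rfl⟩ := hev c hc
    refine ⟨mkK b a' d c', ⟨b, a', d, c', rfl⟩, ?_⟩
    rw [r2, mkK_mul]
    push_cast
    congr 1 <;> ring
  obtain ⟨y0, m0, rfl⟩ := hb h0
  obtain ⟨y1, m1, rfl⟩ := hb h1
  obtain ⟨y2, m2, rfl⟩ := hb h2
  obtain ⟨y3, m3, rfl⟩ := hb h3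
  refine ⟨E4 y0 y1 y2 y3, ⟨![y0, y1, y2, y3], ?_, ?_⟩, ?_⟩
  · intro m
    fin_cases m
    · exact m0
    · exact m1
    · exact m2
    · exact m3
  · rw [sum_e]
    rfl
  · rw [E4_smul]

/-! ### the finite check -/

def star8 (x : B8) : B8 := (fadd x.1 x.2.2.1, x.2.1, x.2.2.1, x.2.2.2)

def smul8 (a : Bool × Bool) (x : B8) : B8 :=
  (fmul a x.1, fmul a x.2.1, fmul a x.2.2.1, fmul a x.2.2.2)

def inv8 (x : B8) : B8 := smul8 (fmul (mul8 x (star8 x)).1 (mul8 x (star8 x)).1) (star8 x)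

def O8 : B8 := ((true, false), (true, false), (false, false), (false, false))
def Z8 : B8 := ((false, true), (false, false), (true, true), (true, true))

def P8 : ℕ → B8
  | 0 => ((true, false), (true, false), (false, false), (false, false))
  | 1 => ((true, true), (true, false), (true, true), (false, false))
  | 2 => ((true, true), (false, true), (false, true), (false, false))
  | 3 => ((true, false), (false, false), (false, true), (false, false))
  | _ => ((false, false), (false, true), (true, true), (false, false))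

def La : List B8 := [((false, false), (false, false), (false, false), (false, false)), ((false, false), (false, false), (false, false), (true, false)), ((false, false), (false, false), (false, false), (false, true)), ((false, false), (false, false), (false, false), (true, true)), ((true, false), (false, false), (false, false), (false, false)), ((true, false), (false, false), (false, false), (true, false)), ((true, false), (false, false), (false, false), (false, true)), ((true, false), (false, false), (false, false), (true, true)), ((false, true), (false, false), (false, false), (false, false)), ((false, true), (false, false), (false, false), (true, false)), ((false, true), (false, false), (false, false), (false, true)), ((false, true), (false, false), (false, false), (true, true)), ((true, true), (false, false), (false, false), (false, false)), ((true, true), (false, false), (false, false), (true, false)), ((true,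 true), (false, false), (false, false), (false, true)), ((true, true), (false, false), (false, false), (true, true))]

def Lb : List B8 := [((false, false), (true, false), (false, true), (false, false)), ((false, false), (false, true), (true, true), (false, false)), ((false, false), (true, true), (true, false), (false, false)), ((true, false), (false, false), (false, true), (false, false)), ((false, true), (false, false), (true, true), (false, false)), ((true, true), (false, false), (true, false), (false, false))]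

def eq8 (x y : B8) : Bool :=
  (x.1.1 == y.1.1) && (x.1.2 == y.1.2) && (x.2.1.1 == y.2.1.1) && (x.2.1.2 == y.2.1.2) &&
  (x.2.2.1.1 == y.2.2.1.1) && (x.2.2.1.2 == y.2.2.1.2) && (x.2.2.2.1 == y.2.2.2.1) &&
  (x.2.2.2.2 == y.2.2.2.2)

theorem eq8_eq {x y : B8} (h : eq8 x y = true) : x = y := by
  obtain ⟨⟨x1, x2⟩, ⟨x3, x4⟩, ⟨x5, x6⟩, x7, x8⟩ := x
  obtain ⟨⟨y1, y2⟩, ⟨y3, y4⟩, ⟨y5, y6⟩, y7, y8⟩ := y
  simp only [eq8, Bool.and_eq_true, beq_iff_eq] at h
  obtain ⟨⟨⟨⟨⟨⟨⟨rfl, rfl⟩, rfl⟩, rfl⟩, rfl⟩, rfl⟩, rfl⟩, rfl⟩ := h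
  rfl

def chk (v : B8) : Bool :=
  eq8 v zero8 || eq8 (mul8 (inv8 v) v) one8 ||
    (List.range 5).any fun k => (La.any fun a => eq8 (mul8 a (P8 k)) v) &&
      (Lb.any fun b => eq8 (mul8 b v) (P8 k))

set_option maxRecDepth 100000 in
theorem fin0 : ∀ p0 q0 p1 q1 p2 q2 p3 q3 : Bool,
    chk ((p0, q0), (p1, q1), (p2, q2), (p3, q3)) = true := by
  decide +kernel

theorem fin1 (v : B8) : v = zero8 ∨ mul8 (inv8 v) v = one8 ∨
    ∃ k < 5, (∃ a, mul8 a (P8 k) = v) ∧ ∃ b, mul8 b v = P8 k := by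
  have h : chk v = true := fin0 v.1.1 v.1.2 v.2.1.1 v.2.1.2 v.2.2.1.1 v.2.2.1.2 v.2.2.2.1 v.2.2.2.2
  unfold chk at h
  rw [Bool.or_eq_true, Bool.or_eq_true] at h
  rcases h with (h | h) | h
  · exact Or.inl (eq8_eq h)
  · exact Or.inr (Or.inl (eq8_eq h))
  · rw [List.any_eq_true] at h
    obtain ⟨k, hk, h⟩ := h
    rw [Bool.and_eq_true, List.any_eq_true, List.any_eq_true] at h
    obtain ⟨⟨a, _, ha⟩, b, _, hb⟩ := h
    exact Or.inr (Or.inr ⟨k, List.mem_range.mp hk, ⟨a, eq8_eq ha⟩, b, eq8_eq hb⟩)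

def T1 : ℕ → B8
  | 1 => ((false, false), (false, false), (false, false), (true, false))
  | 2 => ((false, false), (false, false), (false, true), (true, false))
  | 3 => ((false, false), (false, false), (true, false), (true, false))
  | _ => ((false, false), (false, false), (true, true), (true, false))

def T2 : ℕ → B8
  | 1 => ((false, false), (false, false), (true, false), (false, false))
  | 2 => ((false, false), (false, false), (false, true), (false, false))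
  | 3 => ((false, false), (false, false), (false, true), (false, false))
  | _ => ((false, false), (false, false), (true, false), (false, false))

theorem fin2 (j : ℕ) (hj : j < 5) (h0 : j ≠ 0) :
    add8 (mul8 (T1 j) (P8 0)) (mul8 (T2 j) (P8 j)) = one8 := by
  interval_cases j
  · exact absurd rfl h0
  · rfl
  · rfl
  · rfl
  · rfl

/-! ### the unit of order five -/

noncomputable def ze : HK := E4 (cs 0 1) (cs 0 0) (cs (-1) (-1)) (cs 1 1)

theorem Rs_ze : Rs ze Z8 :=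
  ⟨_, _, _, _, rfl, Bt_cs rfl rfl, Bt_cs rfl rfl, Bt_cs rfl rfl, Bt_cs rfl rfl⟩

theorem Rs_opi : Rs opi O8 := by
  refine ⟨cs 1 0, cs 1 0, cs 0 0, cs 0 0, ?_, Bt_cs rfl rfl, Bt_cs rfl rfl, Bt_cs rfl rfl,
    Bt_cs rfl rfl⟩
  simp only [cs_eq]
  apply Quaternion.ext
  · rw [E4_re]; show (1 : K) = _; push_cast; ring
  · rw [E4_imI]; show (1 : K) = _; push_cast; ring
  · rw [E4_imJ]; show (0 : K) = _; push_cast; ring
  · rw [E4_imK]; show (0 : K) = _; push_cast; ring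

theorem one_eq : (1 : HK) = E4 1 0 0 0 := by
  apply Quaternion.ext
  · rw [E4_re, Quaternion.re_one]; ring
  · rw [E4_imI, Quaternion.imI_one]; ring
  · rw [E4_imJ, Quaternion.imJ_one]; ring
  · rw [E4_imK, Quaternion.imK_one]; ring

theorem Rs_one : Rs (1 : HK) one8 := by
  refine ⟨cs 1 0, cs 0 0, cs 0 0, cs 0 0, ?_, Bt_cs rfl rfl, Bt_cs rfl rfl, Bt_cs rfl rfl,
    Bt_cs rfl rfl⟩
  rw [one_eq]
  simp only [cs_eq]
  push_cast
  congr 1 <;> ring

theorem ph3 : ph ^ 3 = 2 * ph + 1 := by linear_combination (ph + 1) * ph_sq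

theorem ze2 : ze * ze = E4 0 0 (-ph) ph := by
  unfold ze
  rw [E4_mul]
  simp only [cs_eq]
  push_cast
  congr 1
  · linear_combination ph_sq + ph3
  · ring
  · linear_combination -ph_sq
  · linear_combination ph_sq

theorem ze4 : (ze * ze) * (ze * ze) = E4 (-1) 0 (1 + ph) (-1 - ph) := by
  rw [ze2, E4_mul]
  simp only [cs_eq]
  push_cast
  congr 1
  · linear_combination (-2 : K) * ph_sq + ph3
  · ring
  · linear_combination ph_sq
  · linear_combination -ph_sq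

theorem ze5 : ze ^ 5 = 1 := by
  have h : ze ^ 5 = ((ze * ze) * (ze * ze)) * ze := by
    rw [pow_succ, show (4 : ℕ) = 2 + 2 from rfl, pow_add, sq]
  rw [h, ze4]
  unfold ze
  rw [E4_mul, one_eq]
  simp only [cs_eq]
  push_cast
  congr 1
  · linear_combination -ph3
  · ring
  · ring
  · ring

theorem Rs_P (k : ℕ) (hk : k < 5) : Rs (opi * ze ^ k) (P8 k) := by
  have h1 : Rs (opi * ze ^ 0) (P8 0) := by rw [pow_zero, mul_one]; exact Rs_opi
  have step : ∀ n, mul8 (P8 n) Z8 = P8 (n + 1) → Rs (opi * ze ^ n) (P8 n) →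
      Rs (opi * ze ^ (n + 1)) (P8 (n + 1)) := by
    intro n he h
    rw [← he, pow_succ, ← mul_assoc]
    exact h.mul Rs_ze
  have h2 := step 0 rfl h1
  have h3 := step 1 rfl h2
  have h4 := step 2 rfl h3
  have h5 := step 3 rfl h4
  interval_cases k
  · exact h1
  · exact h2
  · exact h3
  · exact h4
  · exact h5

theorem mul_mem {x y : HK} (hx : x ∈ OI) (hy : y ∈ OI) : x * y ∈ OI := by
  obtain ⟨v, hv⟩ := exists_Rs hx
  obtain ⟨w, hw⟩ := exists_Rs hy
  exact (hv.mul hw).mem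

theorem one_mem : (1 : HK) ∈ OI := Rs_one.mem

theorem ze_mem : ze ∈ OI := Rs_ze.mem

theorem pow_mem (k : ℕ) : ze ^ k ∈ OI := by
  induction k with
  | zero => rw [pow_zero]; exact one_mem
  | succ k ih => rw [pow_succ]; exact mul_mem ih ze_mem

theorem key1 {L : AddSubgroup HK} (hL : Mid L) {x : HK} (hx : x ∈ L)
    (hn : ¬ ∃ y ∈ OI, x = r2 • y) : ∃ k < 5, opi * ze ^ k ∈ L ∧
      ∃ a ∈ OI, ∃ c ∈ OI, x = a * (opi * ze ^ k) + r2 • c := by
  obtain ⟨⟨hLO, hLI⟩, hr, h1, -⟩ := hL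
  obtain ⟨v, hv⟩ := exists_Rs (hLO hx)
  rcases fin1 v with h | h | ⟨k, hk, ⟨a, ha⟩, b, hb⟩
  · subst h
    exact absurd hv.div hn
  · exfalso
    obtain ⟨u, hu, hru⟩ := real (inv8 v)
    have h2 : Rs (u * x) one8 := by rw [← h]; exact hru.mul hv
    obtain ⟨c, hc, he⟩ := (h2.sub Rs_one).div
    apply h1
    have : (1 : HK) = u * x - r2 • c := by rw [← he]; abel
    rw [this]
    exact L.sub_mem (hLI u hu x hx) (hr c hc)
  · obtain ⟨A, hA, hrA⟩ := real a
    obtain ⟨B, hB, hrB⟩ := real b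
    have h2 : Rs (A * (opi * ze ^ k)) v := by rw [← ha]; exact hrA.mul (Rs_P k hk)
    have h3 : Rs (B * x) (P8 k) := by rw [← hb]; exact hrB.mul hv
    obtain ⟨c, hc, he⟩ := (hv.sub h2).div
    obtain ⟨c', hc', he'⟩ := ((Rs_P k hk).sub h3).div
    refine ⟨k, hk, ?_, A, hA, c, hc, ?_⟩
    · have : opi * ze ^ k = B * x + r2 • c' := by rw [← he']; abel
      rw [this]
      exact L.add_mem (hLI B hB x hx) (hr c' hc')
    · rw [← he]; abel

theorem key2 {L : AddSubgroup HK} (hL : Mid L) {k l : ℕ} (hk : k < 5) (hl : l < 5)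
    (h : opi * ze ^ k ∈ L) (h' : opi * ze ^ l ∈ L) (hkl : k < l) : False := by
  obtain ⟨⟨hLO, hLI⟩, hr, h1, -⟩ := hL
  obtain ⟨a, ha, hra⟩ := real (T1 (l - k))
  obtain ⟨b, hb, hrb⟩ := real (T2 (l - k))
  have h2 := (hra.mul (Rs_P 0 (by norm_num))).add (hrb.mul (Rs_P (l - k) (by omega)))
  rw [fin2 (l - k) (by omega) (by omega), pow_zero, mul_one] at h2
  obtain ⟨c, hc, he⟩ := (h2.sub Rs_one).div
  have h3 : ze ^ k ∈ L := by
    have e1 : ze ^ k = a * (opi * ze ^ k) + b * (opi * ze ^ l) - r2 • (c * ze ^ k) := by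
      have e2 : (a * opi + b * (opi * ze ^ (l - k)) - 1) * ze ^ k = (r2 • c) * ze ^ k := by
        rw [he]
      have e3 : b * (opi * ze ^ (l - k)) * ze ^ k = b * (opi * ze ^ l) := by
        rw [mul_assoc, mul_assoc, ← pow_add, Nat.sub_add_cancel hkl.le]
      rw [sub_mul, add_mul, one_mul, e3, mul_assoc, smul_mul_assoc] at e2
      rw [← e2]
      abel
    rw [e1]
    exact L.sub_mem (L.add_mem (hLI a ha _ h) (hLI b hb _ h')) (hr _ (mul_mem hc (pow_mem k)))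
  have h4 : (1 : HK) ∈ L := by
    have := hLI (ze ^ (5 - k)) (pow_mem _) _ h3
    rwa [← pow_add, Nat.sub_add_cancel hk.le, ze5] at this
  exact h1 h4

theorem t_NB : S_NB := by
  intro L hL
  obtain ⟨⟨hLO, hLI⟩, hr, h1, x, hx, hxn⟩ := hL
  have hL' : Mid L := ⟨⟨hLO, hLI⟩, hr, h1, x, hx, hxn⟩
  obtain ⟨k, hk, hkL, -⟩ := key1 hL' hx hxn
  have hinv : ze ^ (5 - k) * ze ^ k = 1 := by
    rw [← pow_add, Nat.sub_add_cancel hk.le, ze5]
  have hinv' : ze ^ k * ze ^ (5 - k) = 1 := by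
    rw [← pow_add, Nat.add_sub_cancel' hk.le, ze5]
  refine ⟨ze ^ k, pow_mem k, ze ^ (5 - k), pow_mem _, hinv', hinv, fun z => ⟨fun hz => ?_, ?_⟩⟩
  · by_cases hzn : ∃ y ∈ OI, z = r2 • y
    · obtain ⟨y, hy, rfl⟩ := hzn
      refine ⟨0, OI.zero_mem, y * ze ^ (5 - k), mul_mem hy (pow_mem _), ?_⟩
      rw [zero_mul, zero_add, smul_mul_assoc, mul_assoc, hinv, mul_one]
    · obtain ⟨l, hl, hlL, a, ha, c, hc, he⟩ := key1 hL' hz hzn
      have hkl : l = k := by
        rcases lt_trichotomy k l with h | h | h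
        · exact (key2 hL' hk hl hkL hlL h).elim
        · exact h.symm
        · exact (key2 hL' hl hk hlL hkL h).elim
      subst hkl
      refine ⟨a, ha, c * ze ^ (5 - l), mul_mem hc (pow_mem _), ?_⟩
      rw [add_mul, smul_mul_assoc, mul_assoc c, hinv, mul_one, mul_assoc]
      exact he
  · rintro ⟨a, ha, b, hb, rfl⟩
    rw [add_mul, smul_mul_assoc, mul_assoc a]
    exact L.add_mem (hLI a ha _ hkL) (hr _ (mul_mem hb (pow_mem k)))

end Pool.Agent.U504.TU.NB
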